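import Pool.Agent.N861.PN.STBa
import Pool.Agent.N116.EW.All

/-!
Project PN (helper931), part STB: the pair of paths is close.
-/

set_option autoImplicit false

namespace Pool.Agent.N861.PN.STB

open Pool.Agent.N931.PN

theorem main : S_STAB → S_STB :=
  main' Pool.Agent.N116.EW.allSUM Pool.Agent.N116.EW.allPL

end Pool.Agent.N861.PN.STB
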