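import Pool.Agent.N931.PN.Stm3
import Pool.Agent.N116.EW.PartA
import Pool.Agent.H389R2.NS.Pair1

/-!
Project PN (helper931), part STB: the pair of paths is close (relative to the parts of project EW).
-/

set_option autoImplicit false

namespace Pool.Agent.N861.PN.STB

open Pool.Agent.N931.PN
open H974 H12S H389NS H984N H984P H342P Finset
open Pool.Agent.N116.EW
open H342L (cdist Curve)

theorem ind_le_add {P Q T : Prop} (h : P → Q ∨ T) : ind P ≤ ind Q + ind T := by
  have hQ := ind_nonneg Q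
  have hT := ind_nonneg T
  by_cases hP : P
  · rw [ind_of hP]
    rcases h hP with h1 | h1
    · rw [ind_of h1]; linarith
    · rw [ind_of h1]; linarith
  · rw [ind_not_of hP]; linarith

theorem main' (hSUM : S_SUM) (hPL : S_PL) (hST : S_STAB) : S_STB := by
  intro R
  obtain ⟨C, δ0, hC, hδ0, h⟩ := partA hSUM hPL R
  refine ⟨C * (2 : ℝ) ^ (5 / 4 : ℝ), δ0, by positivity, hδ0, ?_⟩
  intro δ ε r hδ hle hε0 hε1 hr
  obtain ⟨A, hA⟩ : ∃ A : Finset Edg → Finset Edg → Prop,
      A = fun F G => r / 2 < cdist (R.curve δ F) (R.curve δ G) := ⟨_, rfl⟩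
  have hρ : ∀ e ∈ (R.dm δ).edges, (0 : ℝ) ≤ (fun _ : Edg => 1 - ε) e ∧
      (fun _ : Edg => 1 - ε) e ≤ 1 := fun e _ => ⟨by simpa using hε1, by simpa using hε0⟩
  have h1 : E2 (fun _ => 1 - ε) (R.dm δ).edges
      (fun F F' => ind (r < cdist (R.curve δ F) (R.curve δ F'))) ≤
      E2 (fun _ => 1 - ε) (R.dm δ).edges
        (fun F F' => ind (A F (F ∪ F')) + ind (A F' (F ∪ F'))) := by
    apply E2_mono hρ
    intro F F' _ _
    apply ind_le_add
    intro hlt
    rw [hA]
    by_contra hcon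
    push Not at hcon
    obtain ⟨h2, h3⟩ := hcon
    have h4 := H342L.cdist_triangle (R.curve δ F) (R.curve δ (F ∪ F')) (R.curve δ F')
    rw [H342L.cdist_comm (R.curve δ (F ∪ F')) (R.curve δ F')] at h4
    linarith
  rw [A6_add] at h1
  obtain ⟨e1, e2⟩ := hST (R.dm δ).edges ε hε0 hε1 A
  rw [e1, e2] at h1
  have h5 := h δ (ε / 2) (r / 2) hδ hle (by linarith) (by linarith) (by linarith) true
  rw [hA] at h1
  refine h1.trans ((add_le_add h5 h5).trans (le_of_eq ?_))
  have h6 : (r / 2) ^ (-(5 / 4) : ℝ) = r ^ (-(5 / 4) : ℝ) * (2 : ℝ) ^ (5 / 4 : ℝ) := by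
    rw [Real.div_rpow hr.le (by norm_num), Real.rpow_neg (by norm_num : (0 : ℝ) ≤ 2),
      div_inv_eq_mul]
  rw [h6]
  ring

end Pool.Agent.N861.PN.STB
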